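import Mathlib
import Pool.Agent.Q157.Maclaurin

/-!
# Maximal intrinsic volumes of rhombic dodecahedra at fixed mean width

For all `1 < k ≤ d`, among zonotopes in `ℝ^d` generated by `d + 1` segments with spanning
generators and mean width `1`, the `k`-th intrinsic volume is maximal exactly at the regular
rhombic dodecahedra.
-/

namespace Pool.Agent.Results.MP_c3e14a_gt.RegularMaximizers

open scoped RealInnerProductSpace Pointwise
open Pool.Agent.Q157.Maclaurin

/-- Euclidean space `ℝ^d`. -/
abbrev E (d : ℕ) := EuclideanSpace ℝ (Fin d)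

/-- `|p_{i_1} ∧ ⋯ ∧ p_{i_k}|`, `I = {i_1, …, i_k}`: the square root of the Gram determinant. -/
noncomputable def parVol {d n : ℕ} (p : Fin n → E d) (I : Finset (Fin n)) : ℝ :=
  Real.sqrt (Matrix.of fun i j : I => ⟪p i, p j⟫).det

/-- `V_k` of the zonotope `∑ [o, p_i]`. -/
noncomputable def V {d n : ℕ} (k : ℕ) (p : Fin n → E d) : ℝ :=
  ∑ I ∈ (Finset.univ : Finset (Fin n)).powersetCard k, parVol p I

/-- The volume `κ_m` of the unit ball of `ℝ^m`. -/
noncomputable def kappa (m : ℕ) : ℝ := (MeasureTheory.volume (Metric.ball (0 : E m) 1)).toReal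

/-- The mean width of the zonotope `∑ [o, p_i]`. -/
noncomputable def meanWidth {d n : ℕ} (p : Fin n → E d) : ℝ :=
  2 * kappa (d - 1) / (d * kappa d) * ∑ i, ‖p i‖

/-- The generators span `ℝ^d`. -/
def Spanning {d n : ℕ} (p : Fin n → E d) : Prop := Submodule.span ℝ (Set.range p) = ⊤

/-- The zonotope `∑ [o, p_i]` (Minkowski sum of segments). -/
def zonotope {d n : ℕ} (p : Fin n → E d) : Set (E d) := ∑ i, segment ℝ 0 (p i)

/-- `p_1, …, p_{d+1}` are the vertices of a regular simplex centred at the origin. -/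
def IsRegularSimplexAtOrigin {d : ℕ} (p : Fin (d + 1) → E d) : Prop :=
  ∑ i, p i = 0 ∧ ∃ a : ℝ, 0 < a ∧ ∀ i j, i ≠ j → dist (p i) (p j) = a

/-- A regular rhombic dodecahedron: a translate of `∑ [o, q_i]` with `q_1, …, q_{d+1}` the
vertices of a regular simplex centred at the origin. -/
def IsRegularRhombicDodecahedron {d : ℕ} (Z : Set (E d)) : Prop :=
  ∃ (q : Fin (d + 1) → E d) (t : E d), IsRegularSimplexAtOrigin q ∧ Z = {t} + zonotope q

/-! ### Linear algebra -/

/-- The matrix with columns `q_i`. -/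
noncomputable def mat {d n : ℕ} (q : Fin n → E d) : Matrix (Fin d) (Fin n) ℝ :=
  Matrix.of fun j i => q i j

/-- Rescaled generators `q_i = p_i / √|p_i|`. -/
noncomputable def resc {d n : ℕ} (p : Fin n → E d) (i : Fin n) : E d :=
  (Real.sqrt ‖p i‖)⁻¹ • p i

lemma inner_eq_sum {d : ℕ} (x y : E d) : ⟪x, y⟫ = ∑ l, x l * y l := by
  simp [PiLp.inner_apply, mul_comm]

lemma gram_apply {d n : ℕ} (q : Fin n → E d) (i j : Fin n) :
    ((mat q).transpose * mat q) i j = ⟪q i, q j⟫ := by
  rw [inner_eq_sum, Matrix.mul_apply]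
  rfl

lemma sqrt_smul_resc {d n : ℕ} (p : Fin n → E d) (i : Fin n) :
    Real.sqrt ‖p i‖ • resc p i = p i := by
  unfold resc
  rw [smul_smul]
  by_cases h : p i = 0
  · simp [h]
  · have : Real.sqrt ‖p i‖ ≠ 0 := by
      have := norm_pos_iff.mpr h
      positivity
    rw [mul_inv_cancel₀ this, one_smul]

lemma inner_resc_self {d n : ℕ} (p : Fin n → E d) (i : Fin n) :
    ⟪resc p i, resc p i⟫ = ‖p i‖ := by
  unfold resc
  rw [inner_smul_left, inner_smul_right, real_inner_self_eq_norm_sq]
  by_cases h : p i = 0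
  · simp [h]
  · have h1 : 0 < ‖p i‖ := norm_pos_iff.mpr h
    have h2 : Real.sqrt ‖p i‖ ^ 2 = ‖p i‖ := Real.sq_sqrt h1.le
    have h3 : Real.sqrt ‖p i‖ ≠ 0 := by positivity
    simp only [conj_trivial]
    rw [← h2]
    rw [Real.sqrt_sq (by positivity)]
    field_simp

lemma gram_minor_nonneg {d n : ℕ} (q : Fin n → E d) (I : Finset (Fin n)) :
    0 ≤ (((mat q).transpose * mat q).submatrix (Subtype.val : I → Fin n)
      (Subtype.val : I → Fin n)).det := by
  have h : ((mat q).transpose * mat q).PosSemidef := by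
    have := Matrix.posSemidef_conjTranspose_mul_self (mat q)
    rwa [Matrix.conjTranspose_eq_transpose_of_trivial] at this
  exact (h.submatrix _).det_nonneg

lemma parVol_eq {d n : ℕ} (p : Fin n → E d) (I : Finset (Fin n)) :
    parVol p I = Real.sqrt (∏ i ∈ I, ‖p i‖) *
      Real.sqrt (((mat (resc p)).transpose * mat (resc p)).submatrix (Subtype.val : I → Fin n)
        (Subtype.val : I → Fin n)).det := by
  unfold parVol
  rw [← Real.sqrt_mul (Finset.prod_nonneg fun i _ => norm_nonneg _)]
  congr 1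
  have h : (Matrix.of fun i j : I => ⟪p i, p j⟫) =
      Matrix.diagonal (fun i : I => Real.sqrt ‖p i‖) *
        ((mat (resc p)).transpose * mat (resc p)).submatrix (Subtype.val : I → Fin n)
        (Subtype.val : I → Fin n) * Matrix.diagonal (fun i : I => Real.sqrt ‖p i‖) := by
    ext i j
    rw [Matrix.mul_diagonal, Matrix.diagonal_mul, Matrix.submatrix_apply, gram_apply,
      Matrix.of_apply]
    conv_lhs => rw [← sqrt_smul_resc p i, ← sqrt_smul_resc p j]
    rw [inner_smul_left, inner_smul_right]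
    simp only [conj_trivial]
    ring
  rw [h, Matrix.det_mul, Matrix.det_mul, Matrix.det_diagonal]
  have h2 : ∏ i ∈ I, ‖p i‖ = (∏ i : I, Real.sqrt ‖p i‖) * ∏ i : I, Real.sqrt ‖p i‖ := by
    rw [← Finset.prod_mul_distrib, ← Finset.prod_coe_sort I]
    refine Finset.prod_congr rfl fun i _ => ?_
    rw [Real.mul_self_sqrt (norm_nonneg _)]
  rw [h2]
  ring

/-- Sum of the principal `k`-minors. -/
noncomputable def minorSum {m : ℕ} (M : Matrix (Fin m) (Fin m) ℝ) (k : ℕ) : ℝ :=
  ∑ s ∈ (Finset.univ : Finset (Fin m)).powersetCard k,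
    (M.submatrix (Subtype.val : s → Fin m) (Subtype.val : s → Fin m)).det

lemma minorSum_comm {d n : ℕ} (A : Matrix (Fin d) (Fin n) ℝ) (k : ℕ) :
    minorSum (A.transpose * A) k = minorSum (A * A.transpose) k := by
  unfold minorSum
  rw [← Matrix.coeff_det_one_add_X_smul_eq_sum_minors, ← Matrix.coeff_det_one_add_X_smul_eq_sum_minors]
  congr 1
  rw [Matrix.map_mul, Matrix.map_mul, ← Matrix.smul_mul, Matrix.det_one_add_mul_comm,
    Matrix.mul_smul]

lemma minorSum_hermitian {m : ℕ} (M : Matrix (Fin m) (Fin m) ℝ) (hM : M.IsHermitian) (k : ℕ)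
    (hk : k ≤ m) : minorSum M k = esum Finset.univ hM.eigenvalues k := by
  have h1 := Matrix.charpoly_coeff_eq_sum_minors M k (by simpa using hk)
  have h2 := Matrix.charpoly_coeff_eq_sum_minors (Matrix.diagonal hM.eigenvalues) k
    (by simpa using hk)
  have h3 : M.charpoly = (Matrix.diagonal hM.eigenvalues).charpoly := by
    rw [hM.charpoly_eq, Matrix.charpoly_diagonal]
    rfl
  rw [h3, h2] at h1
  have h4 : ((-1 : ℝ)) ^ k ≠ 0 := by
    apply pow_ne_zero; norm_num
  have h5 := mul_left_cancel₀ h4 h1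
  unfold minorSum esum
  rw [← h5]
  refine Finset.sum_congr rfl fun s _ => ?_
  have : (Matrix.diagonal hM.eigenvalues).submatrix (Subtype.val : s → Fin m)
      (Subtype.val : s → Fin m) = Matrix.diagonal (fun i : s => hM.eigenvalues i) := by
    ext i j
    by_cases h : i = j
    · subst h; simp
    · have : (i : Fin m) ≠ j := fun h' => h (Subtype.ext h')
      simp [h, this]
  rw [this, Matrix.det_diagonal, Finset.prod_coe_sort]

lemma isHermitian_S {d n : ℕ} (A : Matrix (Fin d) (Fin n) ℝ) : (A * A.transpose).IsHermitian := by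
  have := (Matrix.posSemidef_self_mul_conjTranspose A).1
  rwa [Matrix.conjTranspose_eq_transpose_of_trivial] at this

lemma eigen_nonneg {d n : ℕ} (A : Matrix (Fin d) (Fin n) ℝ) (j : Fin d) :
    0 ≤ (isHermitian_S A).eigenvalues j := by
  have h : (A * A.transpose).PosSemidef := by
    have := Matrix.posSemidef_self_mul_conjTranspose A
    rwa [Matrix.conjTranspose_eq_transpose_of_trivial] at this
  exact h.eigenvalues_nonneg j

lemma eigen_sum {d n : ℕ} (p : Fin n → E d) :
    ∑ j, (isHermitian_S (mat (resc p))).eigenvalues j = ∑ i, ‖p i‖ := by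
  have h1 := (isHermitian_S (mat (resc p))).trace_eq_sum_eigenvalues
  have h2 : (mat (resc p) * (mat (resc p)).transpose).trace = ∑ i, ‖p i‖ := by
    rw [Matrix.trace_mul_comm, Matrix.trace]
    refine Finset.sum_congr rfl fun i _ => ?_
    rw [Matrix.diag_apply, gram_apply, inner_resc_self]
  rw [h2] at h1
  rw [h1]
  simp

/-- The maximal value. -/
noncomputable def M (d k : ℕ) (c : ℝ) : ℝ :=
  Real.sqrt (((d + 1).choose k : ℝ) * (c / (d + 1)) ^ k) *
    Real.sqrt ((d.choose k : ℝ) * (c / d) ^ k)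

lemma V_le_sqrt {d k : ℕ} (p : Fin (d + 1) → E d) :
    V k p ≤ Real.sqrt (esum Finset.univ (fun i => ‖p i‖) k) *
      Real.sqrt (minorSum (mat (resc p) * (mat (resc p)).transpose) k) := by
  unfold V
  have h := Real.sum_sqrt_mul_sqrt_le ((Finset.univ : Finset (Fin (d + 1))).powersetCard k)
    (f := fun I => ∏ i ∈ I, ‖p i‖)
    (g := fun I => (((mat (resc p)).transpose * mat (resc p)).submatrix
      (Subtype.val : I → Fin (d + 1)) (Subtype.val : I → Fin (d + 1))).det)
    (fun I => Finset.prod_nonneg fun i _ => norm_nonneg _) (fun I => gram_minor_nonneg _ I)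
  rw [← minorSum_comm]
  refine le_trans (le_of_eq ?_) h
  exact Finset.sum_congr rfl fun I _ => parVol_eq p I

lemma esum_norm_le {d k : ℕ} (p : Fin (d + 1) → E d) :
    esum Finset.univ (fun i => ‖p i‖) k
      ≤ ((d + 1).choose k : ℝ) * ((∑ i, ‖p i‖) / (d + 1)) ^ k := by
  have := esum_le (Finset.univ : Finset (Fin (d + 1))) (fun i => ‖p i‖)
    (fun i _ => norm_nonneg _) k
  simpa using this

lemma minorSum_le {d k : ℕ} (hk : k ≤ d) (p : Fin (d + 1) → E d) :
    minorSum (mat (resc p) * (mat (resc p)).transpose) k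
      ≤ (d.choose k : ℝ) * ((∑ i, ‖p i‖) / d) ^ k := by
  rw [minorSum_hermitian _ (isHermitian_S _) k hk]
  have := esum_le (Finset.univ : Finset (Fin d)) (isHermitian_S (mat (resc p))).eigenvalues
    (fun i _ => eigen_nonneg _ i) k
  rw [eigen_sum] at this
  simpa using this

lemma V_le {d k : ℕ} (hk : k ≤ d) (p : Fin (d + 1) → E d) :
    V k p ≤ M d k (∑ i, ‖p i‖) :=
  (V_le_sqrt p).trans (mul_le_mul (Real.sqrt_le_sqrt (esum_norm_le p))
    (Real.sqrt_le_sqrt (minorSum_le hk p)) (Real.sqrt_nonneg _) (Real.sqrt_nonneg _))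

/-- The equality case. -/
lemma eq_case {d k : ℕ} (hk2 : 2 ≤ k) (hk : k ≤ d) (p : Fin (d + 1) → E d)
    (hc : 0 < ∑ i, ‖p i‖) (h : M d k (∑ i, ‖p i‖) ≤ V k p) :
    (∀ i, ‖p i‖ = (∑ i, ‖p i‖) / (d + 1)) ∧
    mat (resc p) * (mat (resc p)).transpose
      = ((∑ i, ‖p i‖) / d) • (1 : Matrix (Fin d) (Fin d) ℝ) := by
  set c := ∑ i, ‖p i‖ with hcdef
  have h1 := V_le_sqrt (k := k) p
  have hA := esum_norm_le (k := k) p
  have hB := minorSum_le hk p
  rw [← hcdef] at hA hB
  set a := esum Finset.univ (fun i => ‖p i‖) k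
  set b := minorSum (mat (resc p) * (mat (resc p)).transpose) k
  set A := ((d + 1).choose k : ℝ) * (c / (d + 1)) ^ k with hAdef
  set B := (d.choose k : ℝ) * (c / d) ^ k with hBdef
  have hd : (0 : ℝ) < d := by
    have : 0 < d := by omega
    exact_mod_cast this
  have hApos : 0 < A := by
    have : (0 : ℝ) < ((d + 1).choose k : ℝ) := by exact_mod_cast Nat.choose_pos (by omega)
    positivity
  have hBpos : 0 < B := by
    have : (0 : ℝ) < (d.choose k : ℝ) := by exact_mod_cast Nat.choose_pos (by omega)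
    positivity
  have h2 : Real.sqrt A * Real.sqrt B ≤ Real.sqrt a * Real.sqrt b := h.trans h1
  have hsA : 0 < Real.sqrt A := Real.sqrt_pos.mpr hApos
  have hsB : 0 < Real.sqrt B := Real.sqrt_pos.mpr hBpos
  have hsa := Real.sqrt_le_sqrt hA
  have hsb := Real.sqrt_le_sqrt hB
  have haA : A ≤ a := by
    by_contra hlt
    push Not at hlt
    have h3 : Real.sqrt a < Real.sqrt A := by
      apply (Real.sqrt_lt_sqrt_iff_of_pos hApos).mpr hlt
    have h4 : Real.sqrt a * Real.sqrt b ≤ Real.sqrt a * Real.sqrt B :=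
      mul_le_mul_of_nonneg_left hsb (Real.sqrt_nonneg _)
    have h5 : Real.sqrt a * Real.sqrt B < Real.sqrt A * Real.sqrt B :=
      mul_lt_mul_of_pos_right h3 hsB
    linarith
  have hbB : B ≤ b := by
    by_contra hlt
    push Not at hlt
    have h3 : Real.sqrt b < Real.sqrt B := by
      apply (Real.sqrt_lt_sqrt_iff_of_pos hBpos).mpr hlt
    have h4 : Real.sqrt a * Real.sqrt b ≤ Real.sqrt A * Real.sqrt b :=
      mul_le_mul_of_nonneg_right hsa (Real.sqrt_nonneg _)
    have h5 : Real.sqrt A * Real.sqrt b < Real.sqrt A * Real.sqrt B :=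
      mul_lt_mul_of_pos_left h3 hsA
    linarith
  constructor
  · intro i
    have := eq_of_esum_ge (Finset.univ : Finset (Fin (d + 1))) (fun i => ‖p i‖)
      (fun i _ => norm_nonneg _) k hk2 (by simp; omega) hc (by simpa using haA) i
      (Finset.mem_univ i)
    simpa using this
  · have hb' : b = esum Finset.univ (isHermitian_S (mat (resc p))).eigenvalues k :=
      minorSum_hermitian _ (isHermitian_S _) k hk
    have hev : ∀ j, (isHermitian_S (mat (resc p))).eigenvalues j = c / d := by
      intro j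
      have := eq_of_esum_ge (Finset.univ : Finset (Fin d))
        (isHermitian_S (mat (resc p))).eigenvalues
        (fun i _ => eigen_nonneg _ i) k hk2 (by simpa using hk) (by rw [eigen_sum]; exact hc)
        (by rw [eigen_sum, ← hb', ← hcdef]; simpa using hbB) j (Finset.mem_univ j)
      rw [eigen_sum, ← hcdef] at this
      simpa using this
    have hsp := (isHermitian_S (mat (resc p))).spectral_theorem
    have hdiag : Matrix.diagonal ((RCLike.ofReal : ℝ → ℝ) ∘ (isHermitian_S (mat (resc p))).eigenvalues)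
        = (c / d) • (1 : Matrix (Fin d) (Fin d) ℝ) := by
      ext i j
      by_cases hij : i = j
      · subst hij; simp [hev]
      · simp [hij]
    rw [hdiag] at hsp
    rw [hsp]
    simp

/-! ### Regular simplices -/

lemma regular_inner {d : ℕ} (p : Fin (d + 1) → E d) (h0 : ∑ i, p i = 0) (a : ℝ)
    (ha : ∀ i j, i ≠ j → dist (p i) (p j) = a) (i j : Fin (d + 1)) :
    ⟪p i, p j⟫ = if i = j then (d : ℝ) * a ^ 2 / (2 * (d + 1)) else - a ^ 2 / (2 * (d + 1)) := by
  have hsq : ∀ i j, ‖p i - p j‖ ^ 2 = if i = j then 0 else a ^ 2 := by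
    intro i j
    by_cases h : i = j
    · simp [h]
    · rw [← dist_eq_norm, ha i j h, if_neg h]
  set T := ∑ j, ‖p j‖ ^ 2 with hT
  have h1 : ∀ i, ((d : ℝ) + 1) * ‖p i‖ ^ 2 + T = d * a ^ 2 := by
    intro i
    have e1 : ∑ j, ‖p i - p j‖ ^ 2 = d * a ^ 2 := by
      simp_rw [hsq]
      rw [Finset.sum_ite]
      simp only [Finset.sum_const_zero, zero_add, Finset.sum_const, nsmul_eq_mul]
      congr 1
      have : (Finset.univ.filter fun x => ¬ i = x) = Finset.univ.erase i := by
        ext x; simp [eq_comm]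
      rw [this, Finset.card_erase_of_mem (Finset.mem_univ i)]
      simp
    have e2 : ∑ j, ‖p i - p j‖ ^ 2 = ((d : ℝ) + 1) * ‖p i‖ ^ 2 + T := by
      simp_rw [norm_sub_sq_real]
      rw [Finset.sum_add_distrib, Finset.sum_sub_distrib, ← Finset.mul_sum, ← inner_sum, h0]
      simp [hT]
    rw [← e2, e1]
  have h2 : 2 * T = d * a ^ 2 := by
    have := Finset.sum_congr (rfl : (Finset.univ : Finset (Fin (d + 1))) = Finset.univ)
      fun i _ => h1 i
    rw [Finset.sum_add_distrib, ← Finset.mul_sum, ← hT] at this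
    simp at this
    have hd : (0 : ℝ) < (d : ℝ) + 1 := by positivity
    have h3 : ((d : ℝ) + 1) * (2 * T) = ((d : ℝ) + 1) * (d * a ^ 2) := by linarith
    exact mul_left_cancel₀ hd.ne' h3
  have hd : (0 : ℝ) < (d : ℝ) + 1 := by positivity
  have h4 : ∀ i, ‖p i‖ ^ 2 = (d : ℝ) * a ^ 2 / (2 * (d + 1)) := by
    intro i
    have := h1 i
    rw [eq_div_iff (by positivity)]
    linarith
  by_cases h : i = j
  · subst h
    rw [if_pos rfl, real_inner_self_eq_norm_sq, h4]
  · rw [if_neg h]
    have h5 := hsq i j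
    rw [if_neg h, norm_sub_sq_real, h4, h4] at h5
    have h6 : ⟪p i, p j⟫ = ((d : ℝ) * a ^ 2 / (2 * (d + 1)) * 2 - a ^ 2) / 2 := by linarith
    rw [h6]
    field_simp
    ring

lemma mat_eq_of_frame {d n : ℕ} (q : Fin n → E d) (κ : ℝ)
    (h : ∀ v : E d, ∑ i, ⟪q i, v⟫ • q i = κ • v) :
    mat q * (mat q).transpose = κ • (1 : Matrix (Fin d) (Fin d) ℝ) := by
  ext j l
  have h1 := congrArg (fun v : E d => v j) (h (EuclideanSpace.single l (1 : ℝ)))
  simp only [PiLp.smul_apply, smul_eq_mul] at h1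
  rw [Matrix.mul_apply, Matrix.smul_apply, Matrix.one_apply]
  have h2 : (∑ i, ⟪q i, EuclideanSpace.single l (1 : ℝ)⟫ • q i) j
      = ∑ i, mat q j i * (mat q).transpose i l := by
    rw [WithLp.ofLp_sum, Finset.sum_apply]
    refine Finset.sum_congr rfl fun i _ => ?_
    have h3 : ⟪q i, EuclideanSpace.single l (1 : ℝ)⟫ = q i l := by
      rw [EuclideanSpace.inner_single_right]; simp
    rw [PiLp.smul_apply, h3]
    simp [mat, mul_comm]
  rw [h2] at h1
  rw [h1]
  simp

lemma regular_S {d : ℕ} (hd : 0 < d) (p : Fin (d + 1) → E d) (hp : IsRegularSimplexAtOrigin p)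
    (hs : Spanning p) :
    (∃ r : ℝ, 0 < r ∧ ∀ i, ‖p i‖ = r) ∧
    mat (resc p) * (mat (resc p)).transpose
      = ((∑ i, ‖p i‖) / d) • (1 : Matrix (Fin d) (Fin d) ℝ) := by
  obtain ⟨h0, a, ha, hdist⟩ := hp
  have hin := regular_inner p h0 a hdist
  have hd' : (0 : ℝ) < d := by exact_mod_cast hd
  set r := Real.sqrt ((d : ℝ) * a ^ 2 / (2 * (d + 1))) with hr
  have hr2 : r ^ 2 = (d : ℝ) * a ^ 2 / (2 * (d + 1)) := Real.sq_sqrt (by positivity)
  have hrpos : 0 < r := Real.sqrt_pos.mpr (by positivity)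
  have hnorm : ∀ i, ‖p i‖ = r := by
    intro i
    have := hin i i
    rw [if_pos rfl, real_inner_self_eq_norm_sq] at this
    rw [hr, ← this, Real.sqrt_sq (norm_nonneg _)]
  refine ⟨⟨r, hrpos, hnorm⟩, ?_⟩
  apply mat_eq_of_frame
  -- the frame identity holds on generators
  have key : (∑ i, (innerₛₗ ℝ (resc p i)).smulRight (resc p i) : E d →ₗ[ℝ] E d)
      = ((∑ i, ‖p i‖) / d) • LinearMap.id := by
    apply LinearMap.ext_on hs
    rintro _ ⟨j, rfl⟩
    simp only [LinearMap.coe_sum, Finset.sum_apply, LinearMap.smulRight_apply,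
      LinearMap.smul_apply, LinearMap.id_apply, innerₛₗ_apply_apply]
    have e1 : ∀ i, ⟪resc p i, p j⟫ • resc p i = (r⁻¹ * ⟪p i, p j⟫) • p i := by
      intro i
      unfold resc
      rw [inner_smul_left, smul_smul, hnorm]
      congr 1
      simp only [conj_trivial]
      have : Real.sqrt r ^ 2 = r := Real.sq_sqrt hrpos.le
      have h3 : Real.sqrt r ≠ 0 := by positivity
      rw [show r⁻¹ = (Real.sqrt r ^ 2)⁻¹ by rw [this]]
      field_simp
    simp_rw [e1, hin]
    have e2 : ∀ i, (r⁻¹ * (if i = j then (d : ℝ) * a ^ 2 / (2 * (d + 1))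
        else - a ^ 2 / (2 * (d + 1)))) • p i
        = (if i = j then (r⁻¹ * (a ^ 2 / 2)) • p i else 0)
          + (r⁻¹ * (- a ^ 2 / (2 * (d + 1)))) • p i := by
      intro i
      by_cases h : i = j
      · rw [if_pos h, if_pos h, ← add_smul]
        congr 1
        field_simp
        ring
      · rw [if_neg h, if_neg h, zero_add]
    simp_rw [e2]
    rw [Finset.sum_add_distrib, ← Finset.smul_sum, h0, smul_zero, add_zero,
      Finset.sum_ite_eq' Finset.univ j]
    simp only [Finset.mem_univ, if_true]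
    congr 1
    simp_rw [hnorm]
    simp only [Finset.sum_const, Finset.card_univ, Fintype.card_fin, nsmul_eq_mul]
    push_cast
    have : a ^ 2 / 2 = r ^ 2 * (d + 1) / d := by
      rw [hr2]; field_simp
    rw [this]
    field_simp
  intro v
  have := congrArg (fun f : E d →ₗ[ℝ] E d => f v) key
  simpa [LinearMap.smulRight_apply] using this

lemma minorSum_scalar {d k : ℕ} (κ : ℝ) :
    minorSum (κ • (1 : Matrix (Fin d) (Fin d) ℝ)) k = (d.choose k : ℝ) * κ ^ k := by
  unfold minorSum
  have : ∀ s ∈ (Finset.univ : Finset (Fin d)).powersetCard k,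
      ((κ • (1 : Matrix (Fin d) (Fin d) ℝ)).submatrix (Subtype.val : s → Fin d)
        (Subtype.val : s → Fin d)).det = κ ^ k := by
    intro s hs
    have h1 : ((κ • (1 : Matrix (Fin d) (Fin d) ℝ)).submatrix (Subtype.val : s → Fin d)
        (Subtype.val : s → Fin d)) = κ • (1 : Matrix s s ℝ) := by
      ext i j
      by_cases h : i = j
      · subst h; simp
      · have : (i : Fin d) ≠ j := fun h' => h (Subtype.ext h')
        simp [Matrix.one_apply, h, this]
    rw [h1, Matrix.det_smul, Matrix.det_one, mul_one]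
    simp [(Finset.mem_powersetCard.mp hs).2]
  rw [Finset.sum_congr rfl this, Finset.sum_const, Finset.card_powersetCard, nsmul_eq_mul]
  simp

/-- The value of `V_k` at regular rhombic dodecahedra. -/
lemma V_regular {d k : ℕ} (hd : 0 < d) (hk : k ≤ d) (p : Fin (d + 1) → E d)
    (hp : IsRegularSimplexAtOrigin p) (hs : Spanning p) :
    V k p = M d k (∑ i, ‖p i‖) := by
  obtain ⟨⟨r, hr, hnorm⟩, hS⟩ := regular_S hd p hp hs
  set c := ∑ i, ‖p i‖ with hc
  have hd' : (0 : ℝ) < d := by exact_mod_cast hd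
  have hcr : c / (d + 1) = r := by
    rw [hc]
    simp_rw [hnorm]
    simp only [Finset.sum_const, Finset.card_univ, Fintype.card_fin, nsmul_eq_mul]
    push_cast
    field_simp
  obtain ⟨h0, a, ha, hdist⟩ := hp
  have hin := regular_inner p h0 a hdist
  obtain ⟨I₀, -, hI₀⟩ := Finset.exists_subset_card_eq
    (s := (Finset.univ : Finset (Fin (d + 1)))) (n := k) (by simp; omega)
  have hconst : ∀ I ∈ (Finset.univ : Finset (Fin (d + 1))).powersetCard k,
      parVol p I = parVol p I₀ := by
    intro I hI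
    have hIc := (Finset.mem_powersetCard.mp hI).2
    have e : I ≃ I₀ := Fintype.equivOfCardEq (by simp [hIc, hI₀])
    unfold parVol
    congr 1
    rw [← Matrix.det_submatrix_equiv_self e]
    congr 1
    ext i j
    simp only [Matrix.of_apply, Matrix.submatrix_apply, hin]
    have : ((e i : Fin (d + 1)) = e j) ↔ ((i : Fin (d + 1)) = j) := by
      rw [← Subtype.ext_iff, ← Subtype.ext_iff, e.injective.eq_iff]
    simp only [this]
  have hV : V k p = ((d + 1).choose k : ℝ) * parVol p I₀ := by
    unfold V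
    rw [Finset.sum_congr rfl hconst, Finset.sum_const, Finset.card_powersetCard, nsmul_eq_mul]
    simp
  have hsq : ∀ I ∈ (Finset.univ : Finset (Fin (d + 1))).powersetCard k,
      parVol p I₀ ^ 2 = r ^ k * (((mat (resc p)).transpose * mat (resc p)).submatrix
        (Subtype.val : I → Fin (d + 1)) (Subtype.val : I → Fin (d + 1))).det := by
    intro I hI
    rw [← hconst I hI, parVol_eq, mul_pow, Real.sq_sqrt (Finset.prod_nonneg fun i _ => norm_nonneg _),
      Real.sq_sqrt (gram_minor_nonneg _ _)]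
    congr 1
    simp_rw [hnorm]
    rw [Finset.prod_const, (Finset.mem_powersetCard.mp hI).2]
  have hsum : ((d + 1).choose k : ℝ) * parVol p I₀ ^ 2 = r ^ k * ((d.choose k : ℝ) * (c / d) ^ k) := by
    have h1 := Finset.sum_congr rfl hsq
    rw [Finset.sum_const, Finset.card_powersetCard, nsmul_eq_mul, ← Finset.mul_sum] at h1
    have h2 : ∑ I ∈ (Finset.univ : Finset (Fin (d + 1))).powersetCard k,
        (((mat (resc p)).transpose * mat (resc p)).submatrix
        (Subtype.val : I → Fin (d + 1)) (Subtype.val : I → Fin (d + 1))).det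
        = (d.choose k : ℝ) * (c / d) ^ k := by
      have h3 := minorSum_comm (mat (resc p)) k
      rw [hS, minorSum_scalar] at h3
      exact h3
    rw [h2] at h1
    simpa using h1
  have hv0 : 0 ≤ parVol p I₀ := Real.sqrt_nonneg _
  rw [hV, M, ← Real.sqrt_mul (by positivity), hcr]
  symm
  rw [Real.sqrt_eq_iff_mul_self_eq (by positivity) (by positivity)]
  symm
  calc ((d + 1).choose k : ℝ) * parVol p I₀ * (((d + 1).choose k : ℝ) * parVol p I₀)
      = ((d + 1).choose k : ℝ) * (((d + 1).choose k : ℝ) * parVol p I₀ ^ 2) := by ring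
    _ = ((d + 1).choose k : ℝ) * r ^ k * ((d.choose k : ℝ) * (c / d) ^ k) := by
        rw [hsum]; ring

/-! ### From the equality case to regularity -/

/-- Sign changes of generators only translate the zonotope. -/
lemma zonotope_signs {d n : ℕ} (p : Fin n → E d) (s : Fin n → ℝ)
    (hs : ∀ i, s i = 1 ∨ s i = -1) :
    ∃ t : E d, zonotope p = {t} + zonotope (fun i => s i • p i) := by
  classical
  refine ⟨∑ i, (if s i = 1 then 0 else p i), ?_⟩
  have h1 : ∀ i, segment ℝ 0 (p i)
      = {(if s i = 1 then 0 else p i)} + segment ℝ 0 (s i • p i) := by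
    intro i
    rcases hs i with h | h
    · rw [if_pos h, h, one_smul]
      simp
    · have h' : s i ≠ 1 := by rw [h]; norm_num
      rw [if_neg h', h, Set.singleton_add, segment_translate_image]
      simp [segment_symm]
  unfold zonotope
  rw [Finset.sum_congr rfl fun i _ => h1 i, Finset.sum_add_distrib]
  congr 1
  have key : ∀ (f : Fin n → E d) (S : Finset (Fin n)), ∑ i ∈ S, ({f i} : Set (E d)) = {∑ i ∈ S, f i} := by
    intro f S
    induction S using Finset.induction_on with
    | empty => rw [Finset.sum_empty, Finset.sum_empty]; rfl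
    | insert a S ha ih => rw [Finset.sum_insert ha, Finset.sum_insert ha, ih, Set.singleton_add_singleton]
  exact key _ _

lemma exists_kernel {d : ℕ} (A : Matrix (Fin d) (Fin (d + 1)) ℝ) :
    ∃ v : Fin (d + 1) → ℝ, A.mulVec v = 0 ∧ ∑ i, v i ^ 2 = 1 := by
  have hni : ¬ Function.Injective A.mulVecLin := by
    intro h
    have := LinearMap.finrank_le_finrank_of_injective h
    simp at this
  have hker : LinearMap.ker A.mulVecLin ≠ ⊥ := by
    intro h
    exact hni (LinearMap.ker_eq_bot.mp h)
  obtain ⟨w, hw, hw0⟩ := Submodule.exists_mem_ne_zero_of_ne_bot hker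
  have hpos : 0 < ∑ i, w i ^ 2 := by
    obtain ⟨i, hi⟩ := Function.ne_iff.mp hw0
    exact lt_of_lt_of_le (by have : w i ≠ 0 := hi; positivity)
      (Finset.single_le_sum (f := fun i => w i ^ 2) (fun i _ => sq_nonneg _) (Finset.mem_univ i))
  set N := Real.sqrt (∑ i, w i ^ 2) with hN
  have hNpos : 0 < N := Real.sqrt_pos.mpr hpos
  refine ⟨N⁻¹ • w, ?_, ?_⟩
  · rw [Matrix.mulVec_smul]
    have : A.mulVec w = 0 := by simpa using hw
    rw [this, smul_zero]
  · simp only [Pi.smul_apply, smul_eq_mul, mul_pow]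
    rw [← Finset.mul_sum]
    have : N ^ 2 = ∑ i, w i ^ 2 := Real.sq_sqrt hpos.le
    rw [← this]
    field_simp

lemma gram_of_S {d : ℕ} (A : Matrix (Fin d) (Fin (d + 1)) ℝ) (κ : ℝ) (hκ : 0 < κ)
    (hS : A * A.transpose = κ • (1 : Matrix (Fin d) (Fin d) ℝ)) (v : Fin (d + 1) → ℝ)
    (hv : A.mulVec v = 0) (hv1 : ∑ i, v i ^ 2 = 1) (i j : Fin (d + 1)) :
    (A.transpose * A) i j = κ * ((if i = j then 1 else 0) - v i * v j) := by
  set t := (Real.sqrt κ)⁻¹ with ht
  have ht2 : t * t = κ⁻¹ := by
    rw [ht, ← mul_inv, Real.mul_self_sqrt hκ.le]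
  set B : Matrix (Fin d ⊕ Unit) (Fin (d + 1)) ℝ :=
    Matrix.of (Sum.elim (fun i j => t * A i j) (fun _ j => v j)) with hB
  have hBl : ∀ i j, B (Sum.inl i) j = t * A i j := fun _ _ => rfl
  have hBr : ∀ u j, B (Sum.inr u) j = v j := fun _ _ => rfl
  have h1 : B * B.transpose = 1 := by
    ext x y
    rw [Matrix.mul_apply]
    simp only [Matrix.transpose_apply]
    rcases x with x | x <;> rcases y with y | y
    · simp only [hBl]
      have h2 := congrFun (congrFun hS x) y
      rw [Matrix.mul_apply] at h2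
      simp only [Matrix.transpose_apply, Matrix.smul_apply, smul_eq_mul] at h2
      have h3 : ∑ l, t * A x l * (t * A y l) = (t * t) * ∑ l, A x l * A y l := by
        rw [Finset.mul_sum]
        exact Finset.sum_congr rfl fun l _ => by ring
      rw [h3, h2, ht2, ← mul_assoc, inv_mul_cancel₀ hκ.ne', one_mul]
      by_cases hxy : x = y
      · subst hxy; simp
      · simp [Matrix.one_apply, hxy]
    · simp only [hBl, hBr]
      have h2 := congrFun hv x
      simp only [Matrix.mulVec, dotProduct, Pi.zero_apply] at h2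
      have h3 : ∑ l, t * A x l * v l = t * ∑ l, A x l * v l := by
        rw [Finset.mul_sum]
        exact Finset.sum_congr rfl fun l _ => by ring
      rw [h3, h2]
      simp
    · simp only [hBl, hBr]
      have h2 := congrFun hv y
      simp only [Matrix.mulVec, dotProduct, Pi.zero_apply] at h2
      have h3 : ∑ l, v l * (t * A y l) = t * ∑ l, A y l * v l := by
        rw [Finset.mul_sum]
        exact Finset.sum_congr rfl fun l _ => by ring
      rw [h3, h2]
      simp
    · simp only [hBr]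
      rw [← hv1.symm.trans (Finset.sum_congr rfl fun l _ => by ring :
        ∑ i, v i ^ 2 = ∑ l, v l * v l)]
      simp
  have h2 : B.transpose * B = 1 := (Matrix.mul_eq_one_comm_of_card_eq _ _ _ (by simp)).mp h1
  have h3 := congrFun (congrFun h2 i) j
  rw [Matrix.mul_apply, Fintype.sum_sum_type] at h3
  simp only [Matrix.transpose_apply, hBl, hBr, Finset.univ_unique, Finset.sum_const,
    Finset.card_singleton, one_smul] at h3
  have h4 : ∑ l, t * A l i * (t * A l j) = κ⁻¹ * (A.transpose * A) i j := by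
    rw [Matrix.mul_apply, Finset.mul_sum]
    refine Finset.sum_congr rfl fun l _ => ?_
    rw [Matrix.transpose_apply, ← ht2]
    ring
  rw [h4, Matrix.one_apply] at h3
  have h5 : κ⁻¹ * (A.transpose * A) i j = (if i = j then 1 else 0) - v i * v j := by linarith
  rw [← h5, ← mul_assoc, mul_inv_cancel₀ hκ.ne', one_mul]

/-- Equal norms and a scalar frame operator force regularity, up to signs. -/
lemma regular_of_eq {d : ℕ} (hd : 0 < d) (p : Fin (d + 1) → E d) (hc : 0 < ∑ i, ‖p i‖)
    (hnorm : ∀ i, ‖p i‖ = (∑ i, ‖p i‖) / (d + 1))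
    (hS : mat (resc p) * (mat (resc p)).transpose
      = ((∑ i, ‖p i‖) / d) • (1 : Matrix (Fin d) (Fin d) ℝ)) :
    ∃ s : Fin (d + 1) → ℝ, (∀ i, s i = 1 ∨ s i = -1) ∧
      IsRegularSimplexAtOrigin (fun i => s i • p i) := by
  set c := ∑ i, ‖p i‖ with hcdef
  have hd' : (0 : ℝ) < d := by exact_mod_cast hd
  set κ := c / d with hκ
  have hκpos : 0 < κ := by positivity
  set r := c / (d + 1) with hr
  have hrpos : 0 < r := by positivity
  obtain ⟨v, hv, hv1⟩ := exists_kernel (mat (resc p))
  have hG := gram_of_S (mat (resc p)) κ hκpos hS v hv hv1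
  have hG' : ∀ i j, ⟪resc p i, resc p j⟫ = κ * ((if i = j then 1 else 0) - v i * v j) := by
    intro i j; rw [← gram_apply, hG]
  have hv2 : ∀ i, v i ^ 2 = 1 / (d + 1) := by
    intro i
    have h1 := hG' i i
    rw [inner_resc_self, hnorm, if_pos rfl] at h1
    have h2 : r / κ = d / (d + 1) := by rw [hr, hκ]; field_simp
    have h3 : 1 - v i * v i = r / κ := by rw [eq_div_iff hκpos.ne', h1]; ring
    rw [h2] at h3
    have h4 : v i ^ 2 = 1 - (d : ℝ) / (d + 1) := by nlinarith
    rw [h4]; field_simp; ring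
  have hpin : ∀ i j, ⟪p i, p j⟫ = r * (κ * ((if i = j then 1 else 0) - v i * v j)) := by
    intro i j
    rw [← hG' i j]
    conv_lhs => rw [← sqrt_smul_resc p i, ← sqrt_smul_resc p j]
    rw [inner_smul_left, inner_smul_right, hnorm i, hnorm j]
    simp only [conj_trivial]
    rw [← mul_assoc, Real.mul_self_sqrt hrpos.le]
  set N := Real.sqrt ((d : ℝ) + 1) with hN
  have hNpos : 0 < N := Real.sqrt_pos.mpr (by positivity)
  have hN2 : N ^ 2 = (d : ℝ) + 1 := Real.sq_sqrt (by positivity)
  refine ⟨fun i => N * v i, ?_, ?_, ?_⟩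
  · intro i
    have : (N * v i) ^ 2 = 1 := by
      rw [mul_pow, hN2, hv2]; field_simp
    exact mul_self_eq_one_iff.mp (by rw [← sq]; exact this)
  · -- the sum vanishes
    have h1 : ∀ i, (N * v i) • p i = (N * Real.sqrt r) • (v i • resc p i) := by
      intro i
      conv_lhs => rw [← sqrt_smul_resc p i, hnorm i]
      rw [smul_smul, smul_smul]
      congr 1
      ring
    simp_rw [h1]
    rw [← Finset.smul_sum]
    have h2 : ∑ i, v i • resc p i = 0 := by
      ext j
      have h3 := congrFun hv j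
      simp only [Matrix.mulVec, dotProduct, Pi.zero_apply] at h3
      rw [WithLp.ofLp_sum, Finset.sum_apply]
      simp only [PiLp.zero_apply]
      rw [← h3]
      refine Finset.sum_congr rfl fun i _ => ?_
      simp [mat, mul_comm]
    rw [h2, smul_zero]
  · refine ⟨Real.sqrt (2 * r * κ), Real.sqrt_pos.mpr (by positivity), ?_⟩
    intro i j hij
    rw [dist_eq_norm]
    rw [← Real.sqrt_sq (norm_nonneg ((N * v i) • p i - (N * v j) • p j))]
    congr 1
    rw [norm_sub_sq_real, norm_smul, norm_smul, mul_pow, mul_pow, inner_smul_left,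
      inner_smul_right, hpin i j, if_neg hij]
    simp only [conj_trivial, Real.norm_eq_abs, sq_abs]
    rw [mul_pow, mul_pow, hN2, hv2, hv2, hnorm i, hnorm j]
    have h1 : N * v i * (N * v j * (r * (κ * (0 - v i * v j)))) = - (r * κ) * ((N ^ 2) * v i ^ 2 * v j ^ 2) := by
      ring
    rw [h1, hN2, hv2, hv2]
    have h2 : r = κ * d / (d + 1) := by rw [hr, hκ]; field_simp
    rw [h2]
    field_simp
    ring

/-! ### Existence of a regular simplex -/

lemma exists_regular (d : ℕ) (hd : 0 < d) :
    ∃ p : Fin (d + 1) → E d, Spanning p ∧ IsRegularSimplexAtOrigin p := by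
  have : Fact (Module.finrank ℝ (E (d + 1)) = d + 1) := ⟨by simp⟩
  let u : E (d + 1) := WithLp.toLp 2 (fun _ => 1)
  have hu : u ≠ 0 := by
    intro h
    have := congrArg (fun v : E (d + 1) => v 0) h
    simp [u] at this
  let b := OrthonormalBasis.fromOrthogonalSpanSingleton (𝕜 := ℝ) d hu
  let H : Submodule ℝ (E (d + 1)) := (Submodule.span ℝ {u})ᗮ
  let P : E (d + 1) →ₗ[ℝ] H := (H.orthogonalProjectionOnto : E (d + 1) →L[ℝ] H).toLinearMap
  let L : E (d + 1) →ₗ[ℝ] E d := b.repr.toLinearEquiv.toLinearMap ∘ₗ P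
  have hLmem : ∀ x : E (d + 1), x ∈ H → ‖L x‖ = ‖x‖ := by
    intro x hx
    have h1 : P x = ⟨x, hx⟩ := by
      exact H.orthogonalProjectionOnto_mem_subspace_eq_self ⟨x, hx⟩
    have h2 : L x = b.repr (P x) := rfl
    rw [h2, LinearIsometryEquiv.norm_map, h1]
    rfl
  have hLu : L u = 0 := by
    have h1 : P u = 0 := by
      apply Submodule.orthogonalProjectionOnto_apply_of_mem_orthogonal
      rw [Submodule.mem_orthogonal]
      intro w hw
      have := (Submodule.mem_orthogonal_singleton_iff_inner_left).mp hw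
      rw [← this]
    have h2 : L u = b.repr (P u) := rfl
    rw [h2, h1, map_zero]
  have hLsurj : Function.Surjective L := by
    intro y
    obtain ⟨x, hx⟩ := b.repr.surjective y
    refine ⟨(x : E (d + 1)), ?_⟩
    have h1 : P (x : E (d + 1)) = x := H.orthogonalProjectionOnto_mem_subspace_eq_self x
    have h2 : L (x : E (d + 1)) = b.repr (P (x : E (d + 1))) := rfl
    rw [h2, h1, hx]
  refine ⟨fun i => L (EuclideanSpace.single i 1), ?_, ?_, Real.sqrt 2, by positivity, ?_⟩
  · unfold Spanning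
    have h1 : Set.range (fun i => L (EuclideanSpace.single i (1 : ℝ)))
        = L '' Set.range (fun i : Fin (d + 1) => EuclideanSpace.single i (1 : ℝ)) := by
      rw [← Set.range_comp]; rfl
    rw [h1, Submodule.span_image]
    have h2 : Submodule.span ℝ (Set.range (fun i : Fin (d + 1) => EuclideanSpace.single i (1 : ℝ)))
        = ⊤ := by
      rw [eq_top_iff]
      intro x _
      have hx : x = ∑ i, x i • EuclideanSpace.single i (1 : ℝ) := by
        ext j
        simp [WithLp.ofLp_sum, Finset.sum_apply, Pi.single_apply]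
      rw [hx]
      exact Submodule.sum_mem _ fun i _ => Submodule.smul_mem _ _ (Submodule.subset_span ⟨i, rfl⟩)
    rw [h2, Submodule.map_top, LinearMap.range_eq_top]
    exact hLsurj
  · rw [← map_sum]
    have : ∑ i, EuclideanSpace.single i (1 : ℝ) = u := by
      ext j
      simp [u, WithLp.ofLp_sum, Finset.sum_apply, Pi.single_apply]
    rw [this, hLu]
  · intro i j hij
    rw [dist_eq_norm, ← map_sub, hLmem]
    · rw [← Real.sqrt_sq (norm_nonneg _), norm_sub_sq_real]
      congr 1
      have h3 : ⟪(EuclideanSpace.single i (1 : ℝ) : E (d + 1)), EuclideanSpace.single j 1⟫ = 0 := by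
        rw [EuclideanSpace.inner_single_right]
        simp [hij]
      rw [h3]
      simp
      norm_num
    · rw [Submodule.mem_orthogonal_singleton_iff_inner_right]
      rw [inner_eq_sum]
      simp [u, Pi.single_apply, Finset.sum_sub_distrib]

lemma kappa_pos (m : ℕ) : 0 < kappa m := by
  unfold kappa
  apply ENNReal.toReal_pos
  · exact (Metric.measure_ball_pos _ _ one_pos).ne'
  · exact MeasureTheory.measure_ball_lt_top.ne

lemma width_const_pos {d : ℕ} (hd : 0 < d) : 0 < 2 * kappa (d - 1) / (d * kappa d) := by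
  have h1 := kappa_pos (d - 1)
  have h2 := kappa_pos d
  have h3 : (0 : ℝ) < d := by exact_mod_cast hd
  positivity

lemma sum_norm_pos {d : ℕ} (p : Fin (d + 1) → E d) (h : meanWidth p = 1) :
    0 < ∑ i, ‖p i‖ := by
  rcases (Finset.sum_nonneg (fun i _ => norm_nonneg (p i)) :
    0 ≤ ∑ i, ‖p i‖).eq_or_lt with h0 | h0
  · unfold meanWidth at h
    rw [← h0] at h
    simp at h
  · exact h0

lemma sum_norm_eq {d : ℕ} (hd : 0 < d) (p q : Fin (d + 1) → E d) (hp : meanWidth p = 1)
    (hq : meanWidth q = 1) : ∑ i, ‖p i‖ = ∑ i, ‖q i‖ := by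
  have h := width_const_pos hd
  unfold meanWidth at hp hq
  rw [← hq] at hp
  exact mul_left_cancel₀ h.ne' hp

lemma parVol_signs {d n : ℕ} (p : Fin n → E d) (s : Fin n → ℝ)
    (hs : ∀ i, s i = 1 ∨ s i = -1) (I : Finset (Fin n)) :
    parVol (fun i => s i • p i) I = parVol p I := by
  unfold parVol
  congr 1
  have h : (Matrix.of fun i j : I => ⟪s i • p i, s j • p j⟫) =
      Matrix.diagonal (fun i : I => s i) * (Matrix.of fun i j : I => ⟪p i, p j⟫)
        * Matrix.diagonal (fun i : I => s i) := by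
    ext i j
    rw [Matrix.mul_diagonal, Matrix.diagonal_mul, Matrix.of_apply, Matrix.of_apply,
      inner_smul_left, inner_smul_right]
    simp only [conj_trivial]
    ring
  rw [h, Matrix.det_mul, Matrix.det_mul, Matrix.det_diagonal]
  have h2 : (∏ i : I, s i) * ∏ i : I, s i = 1 := by
    rw [← Finset.prod_mul_distrib]
    refine Finset.prod_eq_one fun i _ => ?_
    rcases hs i with h | h <;> rw [h] <;> norm_num
  calc (∏ i : I, s i) * (Matrix.of fun i j : I => ⟪p i, p j⟫).det * ∏ i : I, s i
      = ((∏ i : I, s i) * ∏ i : I, s i) * (Matrix.of fun i j : I => ⟪p i, p j⟫).det := by ring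
    _ = _ := by rw [h2, one_mul]

lemma V_signs {d n k : ℕ} (p : Fin n → E d) (s : Fin n → ℝ)
    (hs : ∀ i, s i = 1 ∨ s i = -1) : V k (fun i => s i • p i) = V k p :=
  Finset.sum_congr rfl fun I _ => parVol_signs p s hs I

lemma norm_signs {d n : ℕ} (p : Fin n → E d) (s : Fin n → ℝ)
    (hs : ∀ i, s i = 1 ∨ s i = -1) (i : Fin n) : ‖s i • p i‖ = ‖p i‖ := by
  rcases hs i with h | h <;> rw [h] <;> simp

lemma spanning_signs {d n : ℕ} (p : Fin n → E d) (s : Fin n → ℝ)
    (hs : ∀ i, s i = 1 ∨ s i = -1) (hp : Spanning p) : Spanning (fun i => s i • p i) := by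
  unfold Spanning at *
  rw [eq_top_iff, ← hp, Submodule.span_le]
  rintro _ ⟨i, rfl⟩
  have h1 : s i • p i ∈ Submodule.span ℝ (Set.range fun i => s i • p i) :=
    Submodule.subset_span ⟨i, rfl⟩
  have h2 : p i = s i • (s i • p i) := by
    rcases hs i with h | h <;> rw [h] <;> simp
  rw [h2]
  exact Submodule.smul_mem _ _ h1

/-- **Main theorem.**  Let `1 < k ≤ d`.
(a) Regular rhombic dodecahedra of mean width `1` exist.
(b) A generating tuple `p` (spanning, mean width `1`) maximises `V_k` among all such tuples if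
and only if, after changing the signs of some generators, it consists of the vertices of a
regular simplex centred at the origin.
(c) In particular every rhombic dodecahedron maximising `V_k` at mean width `1` is a regular
rhombic dodecahedron. -/
theorem result (d k : ℕ) (hk : 1 < k) (hkd : k ≤ d) :
    (∃ p : Fin (d + 1) → E d, Spanning p ∧ meanWidth p = 1 ∧ IsRegularSimplexAtOrigin p) ∧
    (∀ p : Fin (d + 1) → E d, Spanning p → meanWidth p = 1 →
      ((∀ q : Fin (d + 1) → E d, Spanning q → meanWidth q = 1 → V k q ≤ V k p) ↔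
        ∃ s : Fin (d + 1) → ℝ, (∀ i, s i = 1 ∨ s i = -1) ∧
          IsRegularSimplexAtOrigin (fun i => s i • p i))) ∧
    (∀ p : Fin (d + 1) → E d, Spanning p → meanWidth p = 1 →
      (∀ q : Fin (d + 1) → E d, Spanning q → meanWidth q = 1 → V k q ≤ V k p) →
        IsRegularRhombicDodecahedron (zonotope p)) := by
  have hd : 0 < d := by omega
  have hex : ∃ p : Fin (d + 1) → E d,
      Spanning p ∧ meanWidth p = 1 ∧ IsRegularSimplexAtOrigin p := by
    obtain ⟨p, hs, h0, a, ha, hdist⟩ := exists_regular d hd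
    have hpos : 0 < meanWidth p := by
      unfold meanWidth
      apply mul_pos (width_const_pos hd)
      obtain ⟨⟨r, hr, hnorm⟩, -⟩ := regular_S hd p ⟨h0, a, ha, hdist⟩ hs
      simp_rw [hnorm]
      simp only [Finset.sum_const, Finset.card_univ, Fintype.card_fin, nsmul_eq_mul]
      positivity
    set t := (meanWidth p)⁻¹ with ht
    have htpos : 0 < t := inv_pos.mpr hpos
    refine ⟨fun i => t • p i, ?_, ?_, ?_, t * a, by positivity, ?_⟩
    · unfold Spanning at *
      rw [eq_top_iff, ← hs, Submodule.span_le]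
      rintro _ ⟨i, rfl⟩
      have h1 : t • p i ∈ Submodule.span ℝ (Set.range fun i => t • p i) :=
        Submodule.subset_span ⟨i, rfl⟩
      have h2 : p i = t⁻¹ • (t • p i) := by rw [smul_smul, inv_mul_cancel₀ htpos.ne', one_smul]
      rw [h2]
      exact Submodule.smul_mem _ _ h1
    · have h1 : meanWidth (fun i => t • p i) = t * meanWidth p := by
        unfold meanWidth
        simp_rw [norm_smul, Real.norm_eq_abs, abs_of_pos htpos]
        rw [← Finset.mul_sum]
        ring
      rw [h1, ht, inv_mul_cancel₀ hpos.ne']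
    · rw [← Finset.smul_sum, h0, smul_zero]
    · intro i j hij
      rw [dist_eq_norm, ← smul_sub, norm_smul, Real.norm_eq_abs, abs_of_pos htpos,
        ← dist_eq_norm, hdist i j hij]
  have hmax : ∀ p : Fin (d + 1) → E d, Spanning p → meanWidth p = 1 →
      (∀ q : Fin (d + 1) → E d, Spanning q → meanWidth q = 1 → V k q ≤ V k p) →
      ∃ s : Fin (d + 1) → ℝ, (∀ i, s i = 1 ∨ s i = -1) ∧
          IsRegularSimplexAtOrigin (fun i => s i • p i) := by
    intro p hs hw hall
    obtain ⟨q, hqs, hqw, hqr⟩ := hex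
    have h1 := hall q hqs hqw
    rw [V_regular hd hkd q hqr hqs, ← sum_norm_eq hd p q hw hqw] at h1
    obtain ⟨h2, h3⟩ := eq_case hk hkd p (sum_norm_pos p hw) h1
    exact regular_of_eq hd p (sum_norm_pos p hw) h2 h3
  refine ⟨hex, ?_, ?_⟩
  · intro p hs hw
    refine ⟨hmax p hs hw, ?_⟩
    rintro ⟨s, hsg, hreg⟩ q hqs hqw
    rw [← V_signs p s hsg, V_regular hd hkd _ hreg (spanning_signs p s hsg hs)]
    have h1 := V_le hkd q
    have h2 : ∑ i, ‖s i • p i‖ = ∑ i, ‖q i‖ := by
      simp_rw [norm_signs p s hsg]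
      exact sum_norm_eq hd p q hw hqw
    rw [h2]
    exact h1
  · intro p hs hw hall
    obtain ⟨s, hsg, hreg⟩ := hmax p hs hw hall
    obtain ⟨t, ht⟩ := zonotope_signs p s hsg
    exact ⟨_, t, hreg, ht⟩

end Pool.Agent.Results.MP_c3e14a_gt.RegularMaximizers
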